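import Pool.Agent.Helper5_cox.Main

set_option autoImplicit false

namespace Pool.Agent.Helper5.Cox

open Pool.Agent.Helper741 Pool.Agent.TH107 CoxeterSystem

variable {B : Type*} {M : CoxeterMatrix B} [Fintype B] [DecidableEq B]
variable {W : Type*} [Group W] {cs : CoxeterSystem M W}

omit [Fintype B] [DecidableEq B] in
lemma cc_nonneg {i j : B} (h : i ≠ j) : 0 ≤ cc M i j := by
  by_cases h0 : M i j = 0
  · rw [cc_of_zero (M := M) h0]; exact zero_le_one
  · have h2 := two_le_of_ne M h h0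
    unfold cc
    have h3 : (2 : ℝ) ≤ M i j := by exact_mod_cast h2
    apply Real.cos_nonneg_of_mem_Icc
    constructor
    · have : 0 ≤ Real.pi / (M i j : ℝ) := by positivity
      have := Real.pi_pos
      linarith
    · apply div_le_div_of_nonneg_left Real.pi_pos.le (by norm_num) h3

lemma IsWeight.inv {φ : W → ℝ} (hφ : IsWeight cs φ) : ∀ n : ℕ, ∀ g : W, cs.length g = n →
    φ g⁻¹ = φ g := by
  intro n
  induction n using Nat.strong_induction_on with
  | _ n ih =>
  intro g hg
  by_cases h1 : g = 1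
  · rw [h1, inv_one]
  obtain ⟨i, hi⟩ := cs.exists_rightDescent_of_ne_one h1
  have hi' : cs.length (g * cs.simple i) < cs.length g := hi
  have h2 := ih _ (by omega) (g * cs.simple i) rfl
  have h3 : cs.length (cs.simple i * g⁻¹) < cs.length g⁻¹ := by
    have h4 : cs.simple i * g⁻¹ = (g * cs.simple i)⁻¹ := by rw [mul_inv_rev, cs.inv_simple]
    rw [h4, cs.length_inv, cs.length_inv]; exact hi'
  rw [hφ.simple_mul' h3, hφ.mul_simple' hi', ← h2, mul_inv_rev, cs.inv_simple, add_comm]

/-- Marked elements: inversions in `J` lie in `F`. -/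
lemma marked_supp (J : Set B) (j : B) (hj : j ∉ J) {x : W} (hxj : geo cs x (ee j) ≤ 0)
    (hxF : ∀ f ∈ {i | i ∈ J ∧ M i j ≠ 0}, cs.length x < cs.length (x * cs.simple f)) :
    ∀ n : ℕ, ∀ q : W, cs.length q = n → q ∈ Para cs {i | i ∈ J ∧ M i j ≠ 0} →
      (∀ i ∈ J, M i j = 0 → ¬ geo cs (x * q) (ee i) ≤ 0) ∧
      (∀ v : B → ℝ, PR cs v → (∀ k, k ∉ J → v k = 0) → geo cs (x * q) v ≤ 0 →
        ∀ k, k ∉ {i | i ∈ J ∧ M i j ≠ 0} → v k = 0) := by
  intro n
  induction n using Nat.strong_induction_on with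
  | _ n ih =>
  intro q hq hqF
  have ha : ∀ i ∈ J, M i j = 0 → ¬ geo cs (x * q) (ee i) ≤ 0 := by
    intro i hi hMij hneg
    have hij : i ≠ j := by rintro rfl; exact hj hi
    by_cases h1 : q = 1
    · rw [h1, mul_one] at hneg
      exact no_both x hij hMij hneg hxj
    obtain ⟨f, hf⟩ := cs.exists_rightDescent_of_ne_one h1
    have hf' : cs.length (q * cs.simple f) < cs.length q := hf
    have hfF := para_descent hqF hf'
    have hq' : q * cs.simple f ∈ Para cs {i | i ∈ J ∧ M i j ≠ 0} :=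
      mul_mem hqF (simple_mem_para hfF)
    have l1 := length_mul_para (cs := cs) hxF _ q rfl hqF
    have l2 := length_mul_para (cs := cs) hxF _ (q * cs.simple f) rfl hq'
    have hxqf : geo cs (x * q) (ee f) ≤ 0 := by
      rw [geo_nonpos_iff, mul_assoc, l1, l2]; omega
    apply (ih _ (by omega) (q * cs.simple f) rfl hq').1 i hi hMij
    have hif : i ≠ f := by rintro rfl; exact hfF.2 hMij
    rw [← mul_assoc, ← geo_geo, geo_simple, sg_ee, map_add, map_smul]
    apply add_nonpos hneg
    apply smul_nonpos_of_nonneg_of_nonpos _ hxqf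
    have := cc_nonneg (M := M) hif
    linarith
  refine ⟨ha, ?_⟩
  intro v hv hsupp hneg
  obtain ⟨i, hiJ, hi⟩ : ∃ i ∈ J, geo cs (x * q) (ee i) ≤ 0 := by
    by_contra hcon
    push Not at hcon
    have h0 : 0 ≤ geo cs (x * q) v := by
      apply nonneg_of_supp (P := J) _ hv.pos hsupp
      intro i hi
      exact (isRt_ee cs i).geo (x * q) |>.not_nonpos.1 (hcon i hi)
    exact (hv.root.geo (x * q)).not_both h0 hneg
  have hiF : i ∈ {i | i ∈ J ∧ M i j ≠ 0} := ⟨hiJ, fun h => ha i hiJ h hi⟩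
  have hqi : cs.length (q * cs.simple i) < cs.length q := by
    rw [← geo_nonpos_iff]
    rcases ((isRt_ee cs i).geo q).cases with h | h
    · exfalso
      have h2 : 0 ≤ geo cs x (geo cs q (ee i)) := by
        apply nonneg_of_supp (P := {i | i ∈ J ∧ M i j ≠ 0}) _ h
        · intro k hk
          rw [para_coord hqF _ hk]
          have : k ≠ i := by rintro rfl; exact hk hiF
          simp [ee, this]
        · intro k hk
          rw [geo_nonneg_iff]; exact hxF k hk
      rw [geo_geo] at h2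
      exact ((isRt_ee cs i).geo (x * q)).not_both h2 hi
    · exact h
  intro k hk
  have hki : k ≠ i := by rintro rfl; exact hk hiF
  by_cases hvi : v = ee i
  · rw [hvi]; simp [ee, hki]
  · have hPR := sg_PR (cs := cs) hv hvi
    have h3 := (ih _ (by omega) (q * cs.simple i) rfl
      (mul_mem hqF (simple_mem_para hiF))).2 (sg M i v) hPR (by
        intro k hk
        have : k ≠ i := by rintro rfl; exact hk hiJ
        rw [sg_supp' this]; exact hsupp k hk) (by
        rw [← mul_assoc, ← geo_geo, geo_simple, sg_sg]; exact hneg) k hk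
    rwa [sg_supp' hki] at h3

lemma marked (J : Set B) (j : B) (hj : j ∉ J) {z c : W}
    (hz : ∀ k ∈ insert j {i | i ∈ J ∧ M i j ≠ 0}, cs.length z < cs.length (z * cs.simple k))
    (hc : c ∈ Para cs (insert j {i | i ∈ J ∧ M i j ≠ 0}))
    (hcF : c ∉ Para cs {i | i ∈ J ∧ M i j ≠ 0}) {v : B → ℝ} (hv : PR cs v)
    (hsupp : ∀ k, k ∉ J → v k = 0) (hneg : geo cs (z * c) v ≤ 0) :
    ∀ k, k ∉ {i | i ∈ J ∧ M i j ≠ 0} → v k = 0 := by
  obtain ⟨x₁, q, hq, he, hl, hd⟩ := factor (cs := cs) {i | i ∈ J ∧ M i j ≠ 0} _ c rfl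
  have hFK : {i | i ∈ J ∧ M i j ≠ 0} ⊆ insert j {i | i ∈ J ∧ M i j ≠ 0} := Set.subset_insert _ _
  have hx₁ : x₁ ∈ Para cs (insert j {i | i ∈ J ∧ M i j ≠ 0}) := by
    have : x₁ = c * q⁻¹ := by rw [he]; group
    rw [this]; exact mul_mem hc (inv_mem (para_mono hFK hq))
  have hx1 : x₁ ≠ 1 := by
    rintro rfl
    rw [one_mul] at he
    rw [he] at hcF
    exact hcF hq
  obtain ⟨k, hk⟩ := cs.exists_rightDescent_of_ne_one hx1
  have hk' : cs.length (x₁ * cs.simple k) < cs.length x₁ := hk
  have hkj : k = j := by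
    rcases para_descent hx₁ hk' with h | h
    · exact h
    · have := hd k h
      omega
  subst hkj
  have hl1 := length_mul_para (cs := cs) hz _ x₁ rfl hx₁
  have key : ∀ i ∈ insert k {i | i ∈ J ∧ M i k ≠ 0},
      cs.length (z * x₁ * cs.simple i) = cs.length z + cs.length (x₁ * cs.simple i) := by
    intro i hi
    rw [mul_assoc]
    exact length_mul_para (cs := cs) hz _ _ rfl (mul_mem hx₁ (simple_mem_para hi))
  have hxj : geo cs (z * x₁) (ee k) ≤ 0 := by
    rw [geo_nonpos_iff, key k (Set.mem_insert _ _), hl1]; omega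
  have hxF : ∀ f ∈ {i | i ∈ J ∧ M i k ≠ 0},
      cs.length (z * x₁) < cs.length (z * x₁ * cs.simple f) := by
    intro f hf
    rw [key f (hFK hf), hl1]
    have := hd f hf
    omega
  rw [he, ← mul_assoc] at hneg
  exact (marked_supp J k hj hxj hxF _ q rfl hq).2 v hv hsupp hneg

lemma suffix_bound {φ : W → ℝ} (hφ : IsWeight cs φ) (J K : Set B) (hJK : J ⊆ K)
    (hdom : ∀ j ∈ K, j ∉ J → Dom cs φ J j) :
    ∀ n : ℕ, ∀ g : W, cs.length g = n → g ∈ Para cs K →
      ∃ g' p : W, p ∈ Para cs J ∧ g = g' * p ∧ cs.length g = cs.length g' + cs.length p ∧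
        φ g ≤ φ p := by
  intro n
  induction n using Nat.strong_induction_on with
  | _ n ih =>
  intro g hg hgK
  obtain ⟨x', p', hp', he', hlen', hdes'⟩ := factor (cs := cs) J _ g⁻¹ rfl
  set p := p'⁻¹ with hpdef
  set y := x'⁻¹ with hydef
  have hp : p ∈ Para cs J := inv_mem hp'
  have hgpy : g = p * y := by
    rw [hpdef, hydef, ← mul_inv_rev, ← he', inv_inv]
  have hl : cs.length g = cs.length p + cs.length y := by
    rw [hpdef, hydef, cs.length_inv, cs.length_inv, ← cs.length_inv g, hlen']; omega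
  have hydes : ∀ i ∈ J, cs.length y < cs.length (cs.simple i * y) := by
    intro i hi
    have := hdes' i hi
    rw [hydef]
    have h1 : cs.simple i * x'⁻¹ = (x' * cs.simple i)⁻¹ := by rw [mul_inv_rev, cs.inv_simple]
    rw [h1, cs.length_inv, cs.length_inv]; exact this
  have hyK : y ∈ Para cs K := by
    have : y = p⁻¹ * g := by rw [hgpy]; group
    rw [this]; exact mul_mem (inv_mem (para_mono hJK hp)) hgK
  by_cases hy1 : y = 1
  · refine ⟨1, p, hp, by rw [hgpy, hy1]; simp, ?_, by rw [hgpy, hy1, mul_one]⟩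
    rw [hl, hy1]; simp
  obtain ⟨j, hj⟩ := cs.exists_leftDescent_of_ne_one hy1
  have hj' : cs.length (cs.simple j * y) < cs.length y := hj
  have hjJ : j ∉ J := by
    intro h
    have := hydes j h
    omega
  have hjK : j ∈ K := para_descent_left hyK hj'
  have hjl : cs.length (cs.simple j * y) + 1 = cs.length y := by
    rcases cs.length_simple_mul y j with h | h <;> omega
  obtain ⟨p₁, q, hq, heq, hlq, hdq⟩ := factor (cs := cs) {i | i ∈ J ∧ M i j = 2} _ p rfl
  have hqJ : q ∈ Para cs J := para_mono (fun i hi => hi.1) hq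
  have hp₁ : p₁ ∈ Para cs J := by
    have : p₁ = p * q⁻¹ := by rw [heq]; group
    rw [this]; exact mul_mem hp (inv_mem hqJ)
  have hcomm : q * cs.simple j = cs.simple j * q := by
    have : q ∈ Subgroup.centralizer {cs.simple j} := by
      have hle : Para cs {i | i ∈ J ∧ M i j = 2} ≤ Subgroup.centralizer {cs.simple j} := by
        unfold Para
        rw [Subgroup.closure_le]
        rintro _ ⟨i, ⟨_, hi2⟩, rfl⟩
        rw [SetLike.mem_coe, Subgroup.mem_centralizer_iff]
        intro h hh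
        rw [Set.mem_singleton_iff] at hh
        subst hh
        have h1 := cs.simple_mul_simple_pow i j
        rw [hi2, pow_two] at h1
        have h2 : cs.simple j * cs.simple i = (cs.simple i * cs.simple j)⁻¹ := by
          rw [mul_inv_rev, cs.inv_simple, cs.inv_simple]
        rw [h2]
        exact (eq_inv_of_mul_eq_one_left h1).symm
      exact hle hq
    rw [Subgroup.mem_centralizer_iff] at this
    exact (this _ rfl).symm
  have hdec : g = p₁ * cs.simple j * (q * (cs.simple j * y)) := by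
    calc g = p₁ * (q * y) := by rw [hgpy, heq]; group
      _ = p₁ * (q * cs.simple j * (cs.simple j * y)) := by
        rw [mul_assoc q, cs.simple_mul_simple_cancel_left]
      _ = p₁ * (cs.simple j * q * (cs.simple j * y)) := by rw [hcomm]
      _ = _ := by group
  have l1 := cs.length_mul_le (p₁ * cs.simple j) (q * (cs.simple j * y))
  rw [← hdec] at l1
  have l2 := cs.length_mul_le q (cs.simple j * y)
  have l3 := cs.length_mul_simple p₁ j
  have hlen1 : cs.length (p₁ * cs.simple j) = cs.length p₁ + 1 := by omega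
  have hlen2 : cs.length g = cs.length (p₁ * cs.simple j) +
      cs.length (q * (cs.simple j * y)) := by omega
  have f1 : φ g = φ (p₁ * cs.simple j) + φ (q * (cs.simple j * y)) := by
    conv_lhs => rw [hdec]
    apply hφ
    rw [← hdec]; exact hlen2
  have f2 : φ (p₁ * cs.simple j) = φ p₁ + φ (cs.simple j) := hφ.mul_simple (by omega)
  have f3 := hdom j hjK hjJ p₁ hp₁ (fun i hi hi2 => hdq i ⟨hi, hi2⟩)
  have hrK : q * (cs.simple j * y) ∈ Para cs K :=
    mul_mem (para_mono hJK hqJ) (mul_mem (simple_mem_para hjK) hyK)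
  obtain ⟨g', p₂, hp₂, hg2, hl2, hφ2⟩ := ih _ (by omega) (q * (cs.simple j * y)) rfl hrK
  refine ⟨p₁ * cs.simple j * g', p₂, hp₂, ?_, ?_, by linarith⟩
  · rw [hdec, hg2]; group
  · have l4 := cs.length_mul_le (p₁ * cs.simple j) g'
    have l5 := cs.length_mul_le (p₁ * cs.simple j * g') p₂
    have l6 : p₁ * cs.simple j * g' * p₂ = g := by rw [hdec, hg2]; group
    rw [l6] at l5
    omega

lemma neg_block {φ : W → ℝ} (hφ : IsWeight cs φ) (F : Set B) (j : B) (hj : j ∉ F)
    (hdom : Dom cs φ F j) {b : W} (hb : b ∈ Para cs (insert j F))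
    (hbF : ∀ f ∈ F, cs.length b < cs.length (cs.simple f * b)) : φ b ≤ 0 := by
  obtain ⟨g', p, hp, he, hl, hle⟩ := suffix_bound hφ F (insert j F) (Set.subset_insert _ _)
    (by
      intro k hk hkF
      rcases hk with rfl | hk
      · exact hdom
      · exact (hkF hk).elim) _ b⁻¹ rfl (inv_mem hb)
  rw [hφ.inv _ b rfl] at hle
  by_cases h1 : p = 1
  · rw [h1, hφ.one] at hle; exact hle
  obtain ⟨f, hf⟩ := cs.exists_rightDescent_of_ne_one h1
  have hf' : cs.length (p * cs.simple f) < cs.length p := hf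
  have hfF := para_descent hp hf'
  have h2 := hbF f hfF
  have h3 : cs.length (b⁻¹ * cs.simple f) = cs.length (cs.simple f * b) := inv_right_len
  rw [he, mul_assoc] at h3
  have h4 := cs.length_mul_le g' (p * cs.simple f)
  rw [cs.length_inv] at hl
  omega

/-- The gluing lemma with one generator outside `J`. -/
lemma glue2 {φ : W → ℝ} (hφ : IsWeight cs φ) (J : Set B) (j : B) (hj : j ∉ J)
    (hdom : Dom cs φ {i | i ∈ J ∧ M i j ≠ 0} j) :
    ∀ n : ℕ, ∀ y : W, cs.length y = n → y ∈ Para cs (insert j J) → ∀ z : W,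
      (∀ v : B → ℝ, PR cs v → (∀ k, k ∉ J → v k = 0) → geo cs z v ≤ 0 →
        geo cs y⁻¹ v ≤ 0 → False) → ∃ z' : W, φ z + φ y ≤ φ z' := by
  intro n
  induction n using Nat.strong_induction_on with
  | _ n ih =>
  intro y hy hyK z hC
  have hJK : J ⊆ insert j J := Set.subset_insert _ _
  by_cases hy1 : y = 1
  · exact ⟨z, by rw [hy1, hφ.one, add_zero]⟩
  by_cases hA : ∃ i ∈ J, cs.length (cs.simple i * y) < cs.length y
  · obtain ⟨i, hiP, hi⟩ := hA
    have hyi : geo cs y⁻¹ (ee i) ≤ 0 := by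
      rw [geo_nonpos_iff, inv_right_len, cs.length_inv]; exact hi
    have hsi : ∀ k, k ∉ J → (ee i : B → ℝ) k = 0 := by
      intro k hk
      have : k ≠ i := by rintro rfl; exact hk hiP
      simp [ee, this]
    have hzi : 0 ≤ geo cs z (ee i) := by
      apply ((isRt_ee cs i).geo z).not_nonpos.1
      intro h
      exact hC (ee i) (PR_ee cs i) hsi h hyi
    have hzl : cs.length z < cs.length (z * cs.simple i) := (geo_nonneg_iff cs z i).1 hzi
    have h2 := ih (cs.length (cs.simple i * y)) (by omega) (cs.simple i * y) rfl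
      (mul_mem (simple_mem_para (hJK hiP)) hyK)
      (z * cs.simple i) (by
        intro v hv hsupp h3 h4
        rw [mul_inv_rev, cs.inv_simple, ← geo_geo, geo_simple] at h4
        rw [← geo_geo, geo_simple] at h3
        by_cases hvi : v = ee i
        · rw [hvi, sg_ee_self, map_neg] at h4
          have h5 : 0 ≤ geo cs y⁻¹ (ee i) := by simpa using h4
          exact ((isRt_ee cs i).geo y⁻¹).not_both h5 hyi
        · apply hC (sg M i v) (sg_PR hv hvi) _ h3 h4
          intro k hk
          have : k ≠ i := by rintro rfl; exact hk hiP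
          rw [sg_supp' this]; exact hsupp k hk)
    obtain ⟨z', hz'⟩ := h2
    refine ⟨z', ?_⟩
    rw [hφ.mul_simple hzl] at hz'
    rw [hφ.simple_mul' hi]
    linarith
  · push Not at hA
    set F : Set B := {i | i ∈ J ∧ M i j ≠ 0} with hF
    have hjF : j ∉ F := fun h => hj h.1
    have hFJ : F ⊆ J := fun i hi => hi.1
    have hFK : F ⊆ insert j F := Set.subset_insert _ _
    have hKK : insert j F ⊆ insert j J := Set.insert_subset_insert hFJ
    obtain ⟨k, hk⟩ := cs.exists_leftDescent_of_ne_one hy1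
    have hk' : cs.length (cs.simple k * y) < cs.length y := hk
    have hkj : k = j := by
      rcases para_descent_left hyK hk' with h | h
      · exact h
      · have := hA k h
        omega
    subst hkj
    obtain ⟨y₁, b₁, hb₁, he, hl, hd⟩ := factor (cs := cs) (insert k F) _ y⁻¹ rfl
    have hyb : y = b₁⁻¹ * y₁⁻¹ := by rw [← mul_inv_rev, ← he, inv_inv]
    have hbK : b₁⁻¹ ∈ Para cs (insert k F) := inv_mem hb₁
    have hlen : cs.length y = cs.length b₁⁻¹ + cs.length y₁⁻¹ := by
      rw [cs.length_inv, cs.length_inv, ← cs.length_inv y, hl]; omega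
    have hb1 : b₁⁻¹ ≠ 1 := by
      intro h
      have h5 : b₁ = 1 := inv_eq_one.mp h
      rw [h5, mul_one] at he
      have h6 := hd k (Set.mem_insert _ _)
      rw [← he, inv_right_len, cs.length_inv] at h6
      omega
    have hbl : 1 ≤ cs.length b₁⁻¹ := by
      by_contra h
      have h7 : cs.length b₁⁻¹ = 0 := by omega
      exact hb1 (cs.length_eq_zero_iff.1 h7)
    have hbF : ∀ f ∈ F, cs.length b₁⁻¹ < cs.length (cs.simple f * b₁⁻¹) := by
      intro f hf
      have h5 := hA f (hFJ hf)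
      have h6 := cs.length_mul_le (cs.simple f * b₁⁻¹) y₁⁻¹
      rw [mul_assoc, ← hyb] at h6
      rcases cs.length_simple_mul b₁⁻¹ f with h7 | h7 <;> omega
    have hy'K : y₁⁻¹ ∈ Para cs (insert k J) := by
      have : y₁⁻¹ = b₁⁻¹⁻¹ * y := by rw [hyb]; group
      rw [this]; exact mul_mem (inv_mem (para_mono hKK hbK)) hyK
    have hφy : φ y = φ b₁⁻¹ + φ y₁⁻¹ := by
      conv_lhs => rw [hyb]
      apply hφ
      rw [← hyb]; exact hlen
    obtain ⟨z₀, c, hc, hez, hlz, hdz⟩ := factor (cs := cs) (insert k F) _ z rfl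
    have hnew : ∃ c' : W, c' ∈ Para cs (insert k F) ∧ c' ∉ Para cs F ∧
        φ z + φ b₁⁻¹ ≤ φ (z₀ * c') := by
      by_cases hcF : c ∈ Para cs F
      · refine ⟨c * b₁⁻¹, mul_mem hc hbK, ?_, ?_⟩
        · intro h
          have h5 : b₁⁻¹ ∈ Para cs F := by
            have : b₁⁻¹ = c⁻¹ * (c * b₁⁻¹) := by group
            rw [this]; exact mul_mem (inv_mem hcF) h
          obtain ⟨f, hf⟩ := cs.exists_leftDescent_of_ne_one hb1
          have hf' : cs.length (cs.simple f * b₁⁻¹) < cs.length b₁⁻¹ := hf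
          have := hbF f (para_descent_left h5 hf')
          omega
        · have h5 : cs.length (c * b₁⁻¹) = cs.length c + cs.length b₁⁻¹ := by
            have h6 := length_mul_para (cs := cs) (P := F) (z := b₁⁻¹⁻¹) (by
              intro f hf
              rw [inv_right_len, cs.length_inv]; exact hbF f hf) _ c⁻¹ rfl (inv_mem hcF)
            rw [← mul_inv_rev, cs.length_inv (c * b₁⁻¹), cs.length_inv b₁⁻¹, cs.length_inv c] at h6
            omega
          have h7 := length_mul_para (cs := cs) hdz _ (c * b₁⁻¹) rfl (mul_mem hc hbK)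
          have h8 : φ (z * b₁⁻¹) = φ z + φ b₁⁻¹ := by
            apply hφ
            rw [hez, mul_assoc, h7, ← hez, hlz, h5]; omega
          rw [← mul_assoc, ← hez, h8]
      · refine ⟨c, hc, hcF, ?_⟩
        have := neg_block hφ F k hjF hdom hbK hbF
        rw [← hez]
        linarith
    obtain ⟨c', hc', hc'F, hφc⟩ := hnew
    obtain ⟨z', hz'⟩ := ih (cs.length y₁⁻¹) (by omega) y₁⁻¹ rfl hy'K (z₀ * c') (by
      intro v hv hsupp h3 h4
      have h5 := marked J k hj hdz hc' hc'F hv hsupp h3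
      rw [inv_inv] at h4
      have h8 : 0 ≤ geo cs y₁ v := by
        apply nonneg_of_supp (P := F) _ hv.pos h5
        intro i hi
        rw [geo_nonneg_iff]
        exact hd i (hFK hi)
      exact (hv.root.geo y₁).not_both h8 h4)
    refine ⟨z', ?_⟩
    linarith

lemma superadd2 {φ : W → ℝ} (hφ : IsWeight cs φ) (J : Set B) (j : B) (hj : j ∉ J)
    (hdom : Dom cs φ {i | i ∈ J ∧ M i j ≠ 0} j) {M₀ : ℝ}
    (hM₀ : ∀ p ∈ Para cs J, φ p ≤ M₀) (x y : W) (hy : y ∈ Para cs (insert j J)) :
    ∃ z : W, φ x + φ y - M₀ ≤ φ z := by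
  obtain ⟨x', p, hp, he, hlen, hdes⟩ := factor (cs := cs) J _ x rfl
  obtain ⟨z, hz⟩ := glue2 hφ J j hj hdom _ y rfl hy x' (by
    intro v hv hs h1 _
    refine (hv.root.geo x').not_both ?_ h1
    apply nonneg_of_supp (P := J) _ hv.pos hs
    intro i hi
    rw [geo_nonneg_iff]
    exact hdes i hi)
  refine ⟨z, ?_⟩
  have h2 : φ x = φ x' + φ p := by
    rw [he]; apply hφ; rw [← he]; exact hlen
  have := hM₀ p hp
  linarith

lemma bound2 {φ : W → ℝ} (hφ : IsWeight cs φ) (J : Set B) (j : B) (hj : j ∉ J)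
    (hdom : Dom cs φ {i | i ∈ J ∧ M i j ≠ 0} j) {M₀ : ℝ}
    (hM₀ : ∀ p ∈ Para cs J, φ p ≤ M₀) {C : ℝ} (hC : ∀ g, φ g ≤ C) (g : W)
    (hg : g ∈ Para cs (insert j J)) : φ g ≤ M₀ := by
  by_contra hcon
  push Not at hcon
  have key : ∀ n : ℕ, ∃ z : W, n * (φ g - M₀) ≤ φ z := by
    intro n
    induction n with
    | zero => exact ⟨1, by rw [hφ.one]; simp⟩
    | succ n ih =>
      obtain ⟨z, hz⟩ := ih
      obtain ⟨z', hz'⟩ := superadd2 hφ J j hj hdom hM₀ z g hg
      refine ⟨z', ?_⟩
      push_cast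
      linarith
  obtain ⟨n, hn⟩ := exists_nat_gt (C / (φ g - M₀))
  obtain ⟨z, hz⟩ := key n
  have h1 : 0 < φ g - M₀ := by linarith
  rw [div_lt_iff₀ h1] at hn
  have := hC z
  linarith

/-- For bounded `φ`, domination by the finitely labelled part of `J` implies domination by
`J`. -/
lemma dom_of_part {φ : W → ℝ} (hφ : IsWeight cs φ) (J : Set B) {j : B} (hj : j ∉ J)
    (hdom : Dom cs φ {i | i ∈ J ∧ M i j ≠ 0} j) {M₀ : ℝ}
    (hM₀ : ∀ p ∈ Para cs J, φ p ≤ M₀) (hsup : ∀ ε > 0, ∃ u ∈ Para cs J, M₀ - ε < φ u)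
    {C : ℝ} (hC : ∀ g, φ g ≤ C) : Dom cs φ J j := by
  intro p hp hpQ
  apply le_of_forall_pos_le_add
  intro ε hε
  obtain ⟨u, hu, hu2⟩ := hsup ε hε
  have hJK : J ⊆ insert j J := Set.subset_insert j J
  have hps : cs.length p < cs.length (p * cs.simple j) := by
    by_contra h
    have : cs.length (p * cs.simple j) < cs.length p := by
      rcases cs.length_mul_simple p j with h1 | h1 <;> omega
    exact hj (para_descent hp this)
  have hz : ∀ i ∈ J, cs.length (p * cs.simple j) < cs.length (p * cs.simple j * cs.simple i) := by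
    intro i hi
    rw [← geo_nonneg_iff, ← geo_geo, geo_simple]
    have hij : i ≠ j := by rintro rfl; exact hj hi
    by_cases h : M i j = 2
    · have e1 : sg M j (ee i) = ee i := by
        rw [sg_ee, cc_two h]; simp
      rw [e1, geo_nonneg_iff]
      exact hpQ i hi h
    · have h5 : IsRt cs (geo cs p (sg M j (ee i))) := by
        have := ((isRt_ee cs i).geo (cs.simple j)).geo p
        rwa [geo_simple] at this
      apply h5.not_nonpos.1
      intro h6
      have h7 := h6 j
      rw [para_coord hp _ hj, sg_ee] at h7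
      have hne : j ≠ i := fun h => hij h.symm
      simp [ee, hne] at h7
      have h8 : 0 ≤ cc M i j := cc_nonneg (M := M) hij
      have h9 : cc M i j ≠ 0 := cc_ne_zero hij h
      have h10 : 0 < cc M i j := lt_of_le_of_ne h8 (Ne.symm h9)
      linarith
  have hlen := length_mul_para (cs := cs) hz _ u rfl hu
  have h1 : φ (p * cs.simple j * u) = φ p + φ (cs.simple j) + φ u := by
    rw [hφ _ _ hlen, hφ.mul_simple hps]
  have h2 : φ (p * cs.simple j * u) ≤ M₀ :=
    bound2 hφ J j hj hdom hM₀ hC _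
      (mul_mem (mul_mem (para_mono hJK hp) (simple_mem_para (Set.mem_insert j J)))
        (para_mono hJK hu))
  linarith

lemma dom_of_comm {φ : W → ℝ} (hφ : IsWeight cs φ) (F : Set B) (j : B)
    (hF : ∀ i ∈ F, M i j = 2) (hjneg : φ (cs.simple j) ≤ 0) : Dom cs φ F j := by
  intro p hp hpQ
  have h1 : p = 1 := by
    by_contra h
    obtain ⟨f, hf⟩ := cs.exists_rightDescent_of_ne_one h
    have hf' : cs.length (p * cs.simple f) < cs.length p := hf
    have hfF := para_descent hp hf'
    have := hpQ f hfF (hF f hfF)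
    omega
  rw [h1, hφ.one, zero_add]; exact hjneg

/-- Criterion, second form. -/
theorem criterion2 {φ : W → ℝ} (hφ : IsWeight cs φ) {C : ℝ} (hC : ∀ g, φ g ≤ C) (J : Set B)
    (hJ : ∀ j, j ∉ J → Dom cs φ {i | i ∈ J ∧ M i j ≠ 0} j)
    {K : ℝ} (hK : ∀ p ∈ Para cs J, φ p ≤ K) (g : W) : φ g ≤ K := by
  set S : Set ℝ := φ '' (Para cs J : Set W) with hS
  have hSne : S.Nonempty := ⟨φ 1, 1, one_mem (Para cs J), rfl⟩
  have hSb : BddAbove S := ⟨K, by rintro _ ⟨p, hp, rfl⟩; exact hK p hp⟩
  have hM₀ : ∀ p ∈ Para cs J, φ p ≤ sSup S := fun p hp => le_csSup hSb ⟨p, hp, rfl⟩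
  have hsup : ∀ ε > 0, ∃ u ∈ Para cs J, sSup S - ε < φ u := by
    intro ε hε
    obtain ⟨_, ⟨u, hu, rfl⟩, h2⟩ := exists_lt_of_lt_csSup hSne (show sSup S - ε < sSup S by linarith)
    exact ⟨u, hu, h2⟩
  have hdom : ∀ j, j ∉ J → Dom cs φ J j := fun j hj => dom_of_part hφ J hj (hJ j hj) hM₀ hsup hC
  refine (bound_of_dom hφ J hdom hM₀ _ g rfl).trans ?_
  exact csSup_le hSne (by rintro _ ⟨p, hp, rfl⟩; exact hK p hp)

end Pool.Agent.Helper5.Cox
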