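import Pool.Agent.TH107.Root
import Pool.Agent.Helper741.Matsumoto

set_option autoImplicit false

/-!
# Weight functions on Coxeter systems: the gluing lemma

Uses the geometric representation `geo` of `Pool.Agent.Helper741` and the root lemmas of
`Pool.Agent.TH107.Root`.
-/

namespace Pool.Agent.Helper5.Cox

open Pool.Agent.Helper741 Pool.Agent.TH107 CoxeterSystem

/-- A weight function on a Coxeter system. -/
def IsWeight {B W : Type*} [Group W] {M : CoxeterMatrix B} (cs : CoxeterSystem M W)
    (φ : W → ℝ) : Prop :=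
  ∀ g h : W, cs.length (g * h) = cs.length g + cs.length h → φ (g * h) = φ g + φ h

/-- Standard parabolic subgroup. -/
def Para {B W : Type*} [Group W] {M : CoxeterMatrix B} (cs : CoxeterSystem M W) (J : Set B) :
    Subgroup W := Subgroup.closure (cs.simple '' J)

section basic

variable {B : Type*} {M : CoxeterMatrix B} {W : Type*} [Group W] {cs : CoxeterSystem M W}

lemma IsWeight.one {φ : W → ℝ} (h : IsWeight cs φ) : φ 1 = 0 := by
  have := h 1 1 (by simp)
  rw [mul_one] at this
  linarith

lemma IsWeight.mul_simple {φ : W → ℝ} (h : IsWeight cs φ) {z : W} {i : B}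
    (hl : cs.length z < cs.length (z * cs.simple i)) :
    φ (z * cs.simple i) = φ z + φ (cs.simple i) := by
  apply h
  rw [cs.length_simple]
  rcases cs.length_mul_simple z i with h1 | h1 <;> omega

lemma IsWeight.mul_simple' {φ : W → ℝ} (h : IsWeight cs φ) {z : W} {i : B}
    (hl : cs.length (z * cs.simple i) < cs.length z) :
    φ z = φ (z * cs.simple i) + φ (cs.simple i) := by
  have := h.mul_simple (z := z * cs.simple i) (i := i)
    (by rwa [cs.simple_mul_simple_cancel_right])
  rwa [cs.simple_mul_simple_cancel_right] at this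

lemma IsWeight.simple_mul' {φ : W → ℝ} (h : IsWeight cs φ) {z : W} {i : B}
    (hl : cs.length (cs.simple i * z) < cs.length z) :
    φ z = φ (cs.simple i) + φ (cs.simple i * z) := by
  have := h (cs.simple i) (cs.simple i * z) (by
    rw [cs.simple_mul_simple_cancel_left, cs.length_simple]
    rcases cs.length_simple_mul z i with h1 | h1 <;> omega)
  rwa [cs.simple_mul_simple_cancel_left] at this

lemma simple_mem_para {P : Set B} {i : B} (h : i ∈ P) : cs.simple i ∈ Para cs P :=
  Subgroup.subset_closure ⟨i, h, rfl⟩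

lemma para_mono {P Q : Set B} (h : P ⊆ Q) : Para cs P ≤ Para cs Q :=
  Subgroup.closure_mono (Set.image_mono h)

lemma factor (P : Set B) : ∀ n : ℕ, ∀ x : W, cs.length x = n →
    ∃ x' p : W, p ∈ Para cs P ∧ x = x' * p ∧ cs.length x = cs.length x' + cs.length p ∧
      ∀ i ∈ P, cs.length x' < cs.length (x' * cs.simple i) := by
  intro n
  induction n using Nat.strong_induction_on with
  | _ n ih =>
  intro x hx
  by_cases h : ∃ i ∈ P, cs.length (x * cs.simple i) < cs.length x
  · obtain ⟨i, hi, hl⟩ := h
    obtain ⟨x', p, hp, he, hlen, hdes⟩ := ih _ (by omega) (x * cs.simple i) rfl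
    refine ⟨x', p * cs.simple i, mul_mem hp (simple_mem_para hi), ?_, ?_, hdes⟩
    · rw [← mul_assoc, ← he, cs.simple_mul_simple_cancel_right]
    · have h1 : x = x' * (p * cs.simple i) := by
        rw [← mul_assoc, ← he, cs.simple_mul_simple_cancel_right]
      have h2 := cs.length_mul_le x' (p * cs.simple i)
      rw [← h1] at h2
      have h3 := cs.length_mul_simple p i
      have h4 := cs.length_mul_simple x i
      omega
  · push Not at h
    refine ⟨x, 1, one_mem _, by simp, by simp, ?_⟩
    intro i hi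
    have := h i hi
    rcases cs.length_mul_simple x i with h1 | h1 <;> omega

lemma para_word {P : Set B} {p : W} (hp : p ∈ Para cs P) :
    ∃ ω : List B, (∀ k ∈ ω, k ∈ P) ∧ p = cs.wordProd ω := by
  induction hp using Subgroup.closure_induction with
  | mem x hx =>
    obtain ⟨i, hi, rfl⟩ := hx
    exact ⟨[i], by simpa using hi, by simp⟩
  | one => exact ⟨[], by simp, by simp⟩
  | mul x y _ _ h1 h2 =>
    obtain ⟨ω, h3, rfl⟩ := h1
    obtain ⟨ω', h4, rfl⟩ := h2
    refine ⟨ω ++ ω', ?_, by rw [cs.wordProd_append]⟩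
    intro k hk
    rcases List.mem_append.1 hk with h | h
    · exact h3 k h
    · exact h4 k h
  | inv x _ h1 =>
    obtain ⟨ω, h3, rfl⟩ := h1
    exact ⟨ω.reverse, by simpa using h3, by rw [cs.wordProd_reverse]⟩

lemma finite_len_le [Finite B] (N : ℕ) : {w : W | cs.length w ≤ N}.Finite := by
  apply ((List.finite_length_le B N).image cs.wordProd).subset
  intro w hw
  obtain ⟨ω, h1, h2⟩ := cs.exists_isReduced w
  refine ⟨ω, ?_, h2.symm⟩
  have h3 : cs.length (cs.wordProd ω) = ω.length := h1
  rw [← h2] at h3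
  have : cs.length w ≤ N := hw
  simp only [Set.mem_ofPred_eq]
  omega

lemma inv_right_len {y : W} {i : B} :
    cs.length (y⁻¹ * cs.simple i) = cs.length (cs.simple i * y) := by
  have h1 : y⁻¹ * cs.simple i = (cs.simple i * y)⁻¹ := by rw [mul_inv_rev, cs.inv_simple]
  rw [h1, cs.length_inv]

end basic

variable {B : Type*} {M : CoxeterMatrix B} [Fintype B] [DecidableEq B]
variable {W : Type*} [Group W] {cs : CoxeterSystem M W}

lemma no_both (z : W) {i j : B} (hij : i ≠ j) (hM : M i j = 0)
    (hi : geo cs z (ee i) ≤ 0) (hj : geo cs z (ee j) ≤ 0) : False := by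
  rw [geo_nonpos_iff] at hi hj
  have key : ∀ k : B, cs.length (z * cs.simple k) < cs.length z →
      cs.length (cs.simple k * z⁻¹) < cs.length z⁻¹ := by
    intro k hk
    have h1 : cs.simple k * z⁻¹ = (z * cs.simple k)⁻¹ := by rw [mul_inv_rev, cs.inv_simple]
    rw [h1, cs.length_inv, cs.length_inv]; exact hk
  obtain ⟨u, hred, hw⟩ := exists_aw_front cs z⁻¹ (cs.length z + 1) i j hij (Or.inl hM)
    (key i hi) (key j hj)
  have h2 : cs.length (cs.wordProd (aw i j (cs.length z + 1) ++ u)) =
    (aw i j (cs.length z + 1) ++ u).length := hred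
  rw [hw, cs.length_inv, List.length_append, aw_length] at h2
  omega

lemma nonneg_of_supp {P : Set B} {z : W} (hz : ∀ i ∈ P, 0 ≤ geo cs z (ee i)) {v : B → ℝ}
    (hv : 0 ≤ v) (hs : ∀ k, k ∉ P → v k = 0) : 0 ≤ geo cs z v := by
  have h1 : v = ∑ i, v i • ee i := by
    ext j
    simp [ee, Finset.sum_apply, Pi.single_apply]
  rw [h1, map_sum]
  apply Finset.sum_nonneg
  intro i _
  rw [map_smul]
  by_cases hi : i ∈ P
  · exact smul_nonneg (hv i) (hz i hi)
  · rw [hs i hi, zero_smul]

lemma sg_PR {v : B → ℝ} (hv : PR cs v) {i : B} (h : v ≠ ee i) : PR cs (sg M i v) := by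
  have hr := hv.root.geo (cs.simple i)
  rw [geo_simple] at hr
  refine ⟨hr, ?_⟩
  by_contra h1
  apply h
  apply PR.eq_ee (cs := cs) hv
  rw [geo_simple]
  exact hr.not_nonneg.1 h1

lemma sg_supp' {v : B → ℝ} {i k : B} (h : k ≠ i) : sg M i v k = v k := by
  rw [sg_apply]
  simp [ee, h]

omit [Fintype B] [DecidableEq B] in
lemma cc_two {i j : B} (h : M i j = 2) : cc M i j = 0 := by
  unfold cc
  rw [h]
  norm_num

lemma geo_coord (ω : List B) (v : B → ℝ) {j : B} (hj : j ∉ ω) :
    geo cs (cs.wordProd ω) v j = v j := by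
  induction ω with
  | nil => simp
  | cons i ω ih =>
    simp only [List.mem_cons, not_or] at hj
    rw [wordProd_cons, ← geo_geo, geo_simple, sg_supp' hj.1]
    exact ih hj.2

lemma para_coord {P : Set B} {p : W} (hp : p ∈ Para cs P) (v : B → ℝ) {j : B} (hj : j ∉ P) :
    geo cs p v j = v j := by
  obtain ⟨ω, h1, rfl⟩ := para_word hp
  exact geo_coord ω v (fun h3 => hj (h1 j h3))

lemma para_descent {P : Set B} {p : W} (hp : p ∈ Para cs P) {i : B}
    (hi : cs.length (p * cs.simple i) < cs.length p) : i ∈ P := by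
  by_contra h
  rw [← geo_nonpos_iff] at hi
  have h3 := hi i
  rw [para_coord hp _ h] at h3
  simp [ee] at h3
  linarith

lemma para_descent_left {P : Set B} {p : W} (hp : p ∈ Para cs P) {i : B}
    (hi : cs.length (cs.simple i * p) < cs.length p) : i ∈ P := by
  apply para_descent (cs := cs) (inv_mem hp)
  rw [inv_right_len, cs.length_inv]
  exact hi

/-- If `z` has no right descent in `P` then lengths add in `z * u` for `u ∈ W_P`. -/
lemma length_mul_para {P : Set B} {z : W}
    (hz : ∀ i ∈ P, cs.length z < cs.length (z * cs.simple i)) :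
    ∀ n : ℕ, ∀ u : W, cs.length u = n → u ∈ Para cs P →
      cs.length (z * u) = cs.length z + cs.length u := by
  intro n
  induction n using Nat.strong_induction_on with
  | _ n ih =>
  intro u hu huP
  by_cases h1 : u = 1
  · rw [h1]; simp
  obtain ⟨i, hi⟩ := cs.exists_rightDescent_of_ne_one h1
  have hi' : cs.length (u * cs.simple i) < cs.length u := hi
  have hiP := para_descent huP hi'
  have hl : cs.length (u * cs.simple i) + 1 = cs.length u := by
    rcases cs.length_mul_simple u i with h | h <;> omega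
  have hu' : u * cs.simple i ∈ Para cs P := mul_mem huP (simple_mem_para hiP)
  have h2 := ih _ (by omega) (u * cs.simple i) rfl hu'
  have h3 : 0 ≤ geo cs (u * cs.simple i) (ee i) := by
    rw [geo_nonneg_iff, cs.simple_mul_simple_cancel_right]; exact hi'
  have h4 : 0 ≤ geo cs (z * (u * cs.simple i)) (ee i) := by
    rw [← geo_geo]
    apply nonneg_of_supp (P := P) _ h3
    · intro k hk
      rw [para_coord hu' _ hk]
      have : k ≠ i := by rintro rfl; exact hk hiP
      simp [ee, this]
    · intro k hk
      rw [geo_nonneg_iff]; exact hz k hk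
  rw [geo_nonneg_iff] at h4
  have h5 : z * (u * cs.simple i) * cs.simple i = z * u := by
    rw [mul_assoc, cs.simple_mul_simple_cancel_right]
  rw [h5] at h4
  have h6 := cs.length_mul_le z u
  omega

lemma comm_supp (P : Set B) (j : B) (hPj : ∀ i ∈ P, M i j = 2 ∨ M i j = 0) (hj : j ∉ P) :
    ∀ n : ℕ, ∀ z : W, cs.length z = n → geo cs z (ee j) ≤ 0 → ∀ v : B → ℝ, PR cs v →
      (∀ k, k ∉ P → v k = 0) → geo cs z v ≤ 0 → ∀ k, M k j = 0 → v k = 0 := by
  intro n
  induction n using Nat.strong_induction_on with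
  | _ n ih =>
  intro z hz hzj v hv hsupp hneg
  obtain ⟨i, hiP, hi⟩ : ∃ i ∈ P, geo cs z (ee i) ≤ 0 := by
    by_contra hcon
    push Not at hcon
    have h0 : 0 ≤ geo cs z v := by
      apply nonneg_of_supp (P := P) _ hv.pos hsupp
      intro i hi
      exact (isRt_ee cs i).geo z |>.not_nonpos.1 (hcon i hi)
    exact (hv.root.geo z).not_both h0 hneg
  have hij : i ≠ j := by rintro rfl; exact hj hiP
  have hM2 : M i j = 2 := by
    rcases hPj i hiP with h | h
    · exact h
    · exact (no_both z hij h hi hzj).elim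
  have hlen : cs.length (z * cs.simple i) < cs.length z := (geo_nonpos_iff cs z i).1 hi
  have e1 : sg M i (ee j) = ee j := by
    rw [sg_ee, cc_two (by rw [M.symmetric j i]; exact hM2)]; simp
  have h1 : geo cs (z * cs.simple i) (ee j) ≤ 0 := by
    rw [← geo_geo, geo_simple, e1]; exact hzj
  by_cases hvi : v = ee i
  · intro k hk
    rw [hvi]
    have : k ≠ i := by rintro rfl; omega
    simp [ee, this]
  · have hPR := sg_PR (cs := cs) hv hvi
    have hneg2 : geo cs (z * cs.simple i) (sg M i v) ≤ 0 := by
      rw [← geo_geo, geo_simple, sg_sg]; exact hneg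
    have hsupp2 : ∀ k, k ∉ P → sg M i v k = 0 := by
      intro k hk
      have : k ≠ i := by rintro rfl; exact hk hiP
      rw [sg_supp' this]; exact hsupp k hk
    have h3 := ih (cs.length (z * cs.simple i)) (by omega) (z * cs.simple i) rfl h1 _ hPR
      hsupp2 hneg2
    intro k hk
    have hki : k ≠ i := by rintro rfl; omega
    have := h3 k hk
    rwa [sg_supp' hki] at this

/-- The gluing lemma. -/
lemma glue {φ : W → ℝ} (hφ : IsWeight cs φ) (P K : Set B) (hPK : P ⊆ K)
    (hneg : ∀ j ∈ K, j ∉ P → φ (cs.simple j) ≤ 0)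
    (hP : ∀ i ∈ P, ∀ j ∈ K, j ∉ P → M i j = 2 ∨ M i j = 0) :
    ∀ n : ℕ, ∀ y : W, cs.length y = n → y ∈ Para cs K → ∀ z : W,
      (∀ v : B → ℝ, PR cs v → (∀ k, k ∉ P → v k = 0) → geo cs z v ≤ 0 →
        geo cs y⁻¹ v ≤ 0 → False) → ∃ z' : W, φ z + φ y ≤ φ z' := by
  intro n
  induction n using Nat.strong_induction_on with
  | _ n ih =>
  intro y hy hyK z hC
  by_cases hy1 : y = 1
  · exact ⟨z, by rw [hy1, hφ.one, add_zero]⟩
  by_cases hA : ∃ i ∈ P, cs.length (cs.simple i * y) < cs.length y
  · obtain ⟨i, hiP, hi⟩ := hA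
    have hyi : geo cs y⁻¹ (ee i) ≤ 0 := by
      rw [geo_nonpos_iff, inv_right_len, cs.length_inv]; exact hi
    have hsi : ∀ k, k ∉ P → (ee i : B → ℝ) k = 0 := by
      intro k hk
      have : k ≠ i := by rintro rfl; exact hk hiP
      simp [ee, this]
    have hzi : 0 ≤ geo cs z (ee i) := by
      apply ((isRt_ee cs i).geo z).not_nonpos.1
      intro h
      exact hC (ee i) (PR_ee cs i) hsi h hyi
    have hzl : cs.length z < cs.length (z * cs.simple i) := (geo_nonneg_iff cs z i).1 hzi
    have h2 := ih (cs.length (cs.simple i * y)) (by omega) (cs.simple i * y) rfl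
      (mul_mem (simple_mem_para (hPK hiP)) hyK)
      (z * cs.simple i) (by
        intro v hv hsupp h3 h4
        rw [mul_inv_rev, cs.inv_simple, ← geo_geo, geo_simple] at h4
        rw [← geo_geo, geo_simple] at h3
        by_cases hvi : v = ee i
        · rw [hvi, sg_ee_self, map_neg] at h4
          have h5 : 0 ≤ geo cs y⁻¹ (ee i) := by simpa using h4
          exact ((isRt_ee cs i).geo y⁻¹).not_both h5 hyi
        · apply hC (sg M i v) (sg_PR hv hvi) _ h3 h4
          intro k hk
          have : k ≠ i := by rintro rfl; exact hk hiP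
          rw [sg_supp' this]; exact hsupp k hk)
    obtain ⟨z', hz'⟩ := h2
    refine ⟨z', ?_⟩
    rw [hφ.mul_simple hzl] at hz'
    rw [hφ.simple_mul' hi]
    linarith
  · push Not at hA
    obtain ⟨j, hj⟩ := cs.exists_leftDescent_of_ne_one hy1
    have hj' : cs.length (cs.simple j * y) < cs.length y := hj
    have hjK : j ∈ K := para_descent_left hyK hj'
    have hjP : j ∉ P := by
      intro h
      have := hA j h
      omega
    obtain ⟨z₁, hz₁, hz₁j⟩ : ∃ z₁ : W, φ z + φ (cs.simple j) ≤ φ z₁ ∧
        geo cs z₁ (ee j) ≤ 0 := by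
      rcases ((isRt_ee cs j).geo z).cases with h | h
      · refine ⟨z * cs.simple j, ?_, ?_⟩
        · rw [hφ.mul_simple ((geo_nonneg_iff cs z j).1 h)]
        · rw [← geo_geo, geo_simple, sg_ee_self, map_neg]; simpa using h
      · exact ⟨z, by have := hneg j hjK hjP; linarith, h⟩
    have h2 := ih (cs.length (cs.simple j * y)) (by omega) (cs.simple j * y) rfl
      (mul_mem (simple_mem_para hjK) hyK) z₁ (by
      intro v hv hsupp h3 h4
      have h5 := comm_supp (cs := cs) P j (fun i hi => hP i hi j hjK hjP) hjP _ z₁ rfl hz₁j v hv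
        hsupp h3
      have h6 : sg M j v = v := by
        rw [sg_apply, coroot_apply]
        have : (∑ k, -2 * cc M j k * v k) = 0 := by
          apply Finset.sum_eq_zero
          intro k _
          by_cases hk : k ∈ P
          · rcases hP k hk j hjK hjP with h7 | h7
            · rw [cc_two (by rw [M.symmetric j k]; exact h7)]; ring
            · rw [h5 k h7]; ring
          · rw [hsupp k hk]; ring
        rw [this, zero_smul, sub_zero]
      rw [mul_inv_rev, cs.inv_simple, ← geo_geo, geo_simple, h6] at h4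
      have h8 : 0 ≤ geo cs y⁻¹ v := by
        apply nonneg_of_supp (P := P) _ hv.pos hsupp
        intro i hi
        rw [geo_nonneg_iff, inv_right_len, cs.length_inv]
        have := hA i hi
        rcases cs.length_simple_mul y i with h9 | h9 <;> omega
      exact (hv.root.geo y⁻¹).not_both h8 h4)
    obtain ⟨z', hz'⟩ := h2
    refine ⟨z', ?_⟩
    rw [hφ.simple_mul' hj']
    linarith

end Pool.Agent.Helper5.Cox
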