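import Pool.Agent.Helper5_cox.Core

set_option autoImplicit false

namespace Pool.Agent.Helper5.Cox

open Pool.Agent.Helper741 Pool.Agent.TH107 CoxeterSystem

variable {B : Type*} {M : CoxeterMatrix B} [Fintype B] [DecidableEq B]
variable {W : Type*} [Group W] {cs : CoxeterSystem M W}

lemma para_len {φ : W → ℝ} (hφ : IsWeight cs φ) {P : Set B} {c : ℝ}
    (hc : ∀ i ∈ P, c ≤ φ (cs.simple i)) : ∀ n : ℕ, ∀ p : W, cs.length p = n → p ∈ Para cs P →
      c * n ≤ φ p := by
  intro n
  induction n using Nat.strong_induction_on with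
  | _ n ih =>
  intro p hp hpP
  by_cases h1 : p = 1
  · rw [← hp, h1, hφ.one]; simp
  obtain ⟨i, hi⟩ := cs.exists_rightDescent_of_ne_one h1
  have hi' : cs.length (p * cs.simple i) < cs.length p := hi
  have hiP := para_descent hpP hi'
  have hl : cs.length (p * cs.simple i) + 1 = cs.length p := by
    rcases cs.length_mul_simple p i with h | h <;> omega
  have h2 := ih _ (by omega) (p * cs.simple i) rfl (mul_mem hpP (simple_mem_para hiP))
  rw [hφ.mul_simple' hi', ← hp, ← hl]
  have := hc i hiP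
  push_cast
  linarith

lemma exists_min_pos (P : Set B) (f : B → ℝ) (h : ∀ i ∈ P, 0 < f i) :
    ∃ c : ℝ, 0 < c ∧ ∀ i ∈ P, c ≤ f i := by
  by_cases hne : P.Nonempty
  · obtain ⟨i, hi, hmin⟩ := Set.exists_min_image P f (Set.toFinite P) hne
    exact ⟨f i, h i hi, hmin⟩
  · exact ⟨1, one_pos, fun i hi => (hne ⟨i, hi⟩).elim⟩

lemma para_finite {φ : W → ℝ} (hφ : IsWeight cs φ) {K : ℝ} (hK : ∀ g, φ g ≤ K) {P : Set B}
    (hP : ∀ i ∈ P, 0 < φ (cs.simple i)) : (Para cs P : Set W).Finite := by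
  obtain ⟨c, hc0, hc⟩ := exists_min_pos P (fun i => φ (cs.simple i)) hP
  apply (finite_len_le (cs := cs) ⌊K / c⌋₊).subset
  intro p hp
  have h1 := para_len hφ hc _ p rfl hp
  have h2 : (cs.length p : ℝ) ≤ K / c := by
    rw [le_div_iff₀ hc0]
    have := hK p
    linarith
  exact Nat.le_floor h2

lemma superadd {φ : W → ℝ} (hφ : IsWeight cs φ) (P K : Set B) (hPK : P ⊆ K)
    (hneg : ∀ j ∈ K, j ∉ P → φ (cs.simple j) ≤ 0)
    (hP : ∀ i ∈ P, ∀ j ∈ K, j ∉ P → M i j = 2 ∨ M i j = 0) {M₀ : ℝ}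
    (hM₀ : ∀ p ∈ Para cs P, φ p ≤ M₀) (x y : W) (hy : y ∈ Para cs K) :
    ∃ z : W, φ x + φ y - M₀ ≤ φ z := by
  obtain ⟨x', p, hp, he, hlen, hdes⟩ := factor (cs := cs) P _ x rfl
  obtain ⟨z, hz⟩ := glue hφ P K hPK hneg hP _ y rfl hy x' (by
    intro v hv hs h1 _
    refine (hv.root.geo x').not_both ?_ h1
    apply nonneg_of_supp (P := P) _ hv.pos hs
    intro i hi
    rw [geo_nonneg_iff]
    exact hdes i hi)
  refine ⟨z, ?_⟩
  have h2 : φ x = φ x' + φ p := by
    rw [he]; apply hφ; rw [← he]; exact hlen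
  have := hM₀ p hp
  linarith

lemma bound {φ : W → ℝ} (hφ : IsWeight cs φ) (P K : Set B) (hPK : P ⊆ K)
    (hneg : ∀ j ∈ K, j ∉ P → φ (cs.simple j) ≤ 0)
    (hP : ∀ i ∈ P, ∀ j ∈ K, j ∉ P → M i j = 2 ∨ M i j = 0) {M₀ : ℝ}
    (hM₀ : ∀ p ∈ Para cs P, φ p ≤ M₀) {C : ℝ} (hC : ∀ g, φ g ≤ C) (g : W)
    (hg : g ∈ Para cs K) : φ g ≤ M₀ := by
  by_contra hcon
  push Not at hcon
  have key : ∀ n : ℕ, ∃ z : W, n * (φ g - M₀) ≤ φ z := by
    intro n
    induction n with
    | zero => exact ⟨1, by rw [hφ.one]; simp⟩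
    | succ n ih =>
      obtain ⟨z, hz⟩ := ih
      obtain ⟨z', hz'⟩ := superadd hφ P K hPK hneg hP hM₀ z g hg
      refine ⟨z', ?_⟩
      push_cast
      linarith
  obtain ⟨n, hn⟩ := exists_nat_gt (C / (φ g - M₀))
  obtain ⟨z, hz⟩ := key n
  have h1 : 0 < φ g - M₀ := by linarith
  rw [div_lt_iff₀ h1] at hn
  have := hC z
  linarith

/-- The domination condition of a generator `j` with respect to `J`. -/
def Dom (cs : CoxeterSystem M W) (φ : W → ℝ) (J : Set B) (j : B) : Prop :=
  ∀ p ∈ Para cs J, (∀ i ∈ J, M i j = 2 → cs.length p < cs.length (p * cs.simple i)) →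
    φ p + φ (cs.simple j) ≤ 0

lemma dom_of_sep {φ : W → ℝ} (hφ : IsWeight cs φ) (J : Set B) {j : B} (hj : j ∉ J)
    (hjneg : φ (cs.simple j) ≤ 0) (hJ : ∀ i ∈ J, M i j = 2 ∨ M i j = 0) {M₀ : ℝ}
    (hM₀ : ∀ p ∈ Para cs J, φ p ≤ M₀) (hsup : ∀ ε > 0, ∃ u ∈ Para cs J, M₀ - ε < φ u)
    {C : ℝ} (hC : ∀ g, φ g ≤ C) : Dom cs φ J j := by
  intro p hp hpQ
  apply le_of_forall_pos_le_add
  intro ε hε
  obtain ⟨u, hu, hu2⟩ := hsup ε hε
  have hJK : J ⊆ insert j J := Set.subset_insert j J
  have hps : cs.length p < cs.length (p * cs.simple j) := by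
    by_contra h
    have : cs.length (p * cs.simple j) < cs.length p := by
      rcases cs.length_mul_simple p j with h1 | h1 <;> omega
    exact hj (para_descent hp this)
  have hz : ∀ i ∈ J, cs.length (p * cs.simple j) < cs.length (p * cs.simple j * cs.simple i) := by
    intro i hi
    rw [← geo_nonneg_iff, ← geo_geo, geo_simple]
    rcases hJ i hi with h | h
    · have e1 : sg M j (ee i) = ee i := by
        rw [sg_ee, cc_two h]; simp
      rw [e1, geo_nonneg_iff]
      exact hpQ i hi h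
    · have h5 : IsRt cs (geo cs p (sg M j (ee i))) := by
        have := ((isRt_ee cs i).geo (cs.simple j)).geo p
        rwa [geo_simple] at this
      apply h5.not_nonpos.1
      intro h6
      have h7 := h6 j
      rw [para_coord hp _ hj, sg_ee, cc_of_zero (M := M) h] at h7
      have hne : j ≠ i := by rintro rfl; exact hj hi
      simp [ee, hne] at h7
      linarith
  have hlen := length_mul_para (cs := cs) hz _ u rfl hu
  have h1 : φ (p * cs.simple j * u) = φ p + φ (cs.simple j) + φ u := by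
    rw [hφ _ _ hlen, hφ.mul_simple hps]
  have h2 : φ (p * cs.simple j * u) ≤ M₀ := by
    apply bound hφ J (insert j J) hJK _ _ hM₀ hC
    · exact mul_mem (mul_mem (para_mono hJK hp) (simple_mem_para (Set.mem_insert j J)))
        (para_mono hJK hu)
    · intro k hk hkJ
      rcases hk with rfl | hk
      · exact hjneg
      · exact (hkJ hk).elim
    · intro i hi k hk hkJ
      rcases hk with rfl | hk
      · exact hJ i hi
      · exact (hkJ hk).elim
  linarith

lemma bound_of_dom {φ : W → ℝ} (hφ : IsWeight cs φ) (J : Set B)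
    (hdom : ∀ j, j ∉ J → Dom cs φ J j) {M₀ : ℝ} (hM₀ : ∀ p ∈ Para cs J, φ p ≤ M₀) :
    ∀ n : ℕ, ∀ g : W, cs.length g = n → φ g ≤ M₀ := by
  intro n
  induction n using Nat.strong_induction_on with
  | _ n ih =>
  intro g hg
  obtain ⟨x', p', hp', he', hlen', hdes'⟩ := factor (cs := cs) J _ g⁻¹ rfl
  -- g = p * y
  set p := p'⁻¹ with hpdef
  set y := x'⁻¹ with hydef
  have hp : p ∈ Para cs J := inv_mem hp'
  have hgpy : g = p * y := by
    rw [hpdef, hydef, ← mul_inv_rev, ← he', inv_inv]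
  have hl : cs.length g = cs.length p + cs.length y := by
    rw [hpdef, hydef, cs.length_inv, cs.length_inv, ← cs.length_inv g, hlen']; omega
  have hydes : ∀ i ∈ J, cs.length y < cs.length (cs.simple i * y) := by
    intro i hi
    have := hdes' i hi
    rw [hydef]
    have h1 : cs.simple i * x'⁻¹ = (x' * cs.simple i)⁻¹ := by rw [mul_inv_rev, cs.inv_simple]
    rw [h1, cs.length_inv, cs.length_inv]; exact this
  by_cases hy1 : y = 1
  · rw [hgpy, hy1, mul_one]; exact hM₀ p hp
  obtain ⟨j, hj⟩ := cs.exists_leftDescent_of_ne_one hy1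
  have hj' : cs.length (cs.simple j * y) < cs.length y := hj
  have hjJ : j ∉ J := by
    intro h
    have := hydes j h
    omega
  have hjl : cs.length (cs.simple j * y) + 1 = cs.length y := by
    rcases cs.length_simple_mul y j with h | h <;> omega
  obtain ⟨p₁, q, hq, heq, hlq, hdq⟩ := factor (cs := cs) {i | i ∈ J ∧ M i j = 2} _ p rfl
  have hqJ : q ∈ Para cs J := para_mono (fun i hi => hi.1) hq
  have hp₁ : p₁ ∈ Para cs J := by
    have : p₁ = p * q⁻¹ := by rw [heq]; group
    rw [this]; exact mul_mem hp (inv_mem hqJ)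
  have hcomm : q * cs.simple j = cs.simple j * q := by
    have : q ∈ Subgroup.centralizer {cs.simple j} := by
      have hle : Para cs {i | i ∈ J ∧ M i j = 2} ≤ Subgroup.centralizer {cs.simple j} := by
        unfold Para
        rw [Subgroup.closure_le]
        rintro _ ⟨i, ⟨_, hi2⟩, rfl⟩
        rw [SetLike.mem_coe, Subgroup.mem_centralizer_iff]
        intro h hh
        rw [Set.mem_singleton_iff] at hh
        subst hh
        have h1 := cs.simple_mul_simple_pow i j
        rw [hi2, pow_two] at h1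
        have h2 : cs.simple j * cs.simple i = (cs.simple i * cs.simple j)⁻¹ := by
          rw [mul_inv_rev, cs.inv_simple, cs.inv_simple]
        rw [h2]
        exact (eq_inv_of_mul_eq_one_left h1).symm
      exact hle hq
    rw [Subgroup.mem_centralizer_iff] at this
    exact (this _ rfl).symm
  have hdec : g = p₁ * cs.simple j * (q * (cs.simple j * y)) := by
    calc g = p₁ * (q * y) := by rw [hgpy, heq]; group
      _ = p₁ * (q * cs.simple j * (cs.simple j * y)) := by
        rw [mul_assoc q, cs.simple_mul_simple_cancel_left]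
      _ = p₁ * (cs.simple j * q * (cs.simple j * y)) := by rw [hcomm]
      _ = _ := by group
  have l1 := cs.length_mul_le (p₁ * cs.simple j) (q * (cs.simple j * y))
  rw [← hdec] at l1
  have l2 := cs.length_mul_le q (cs.simple j * y)
  have l3 := cs.length_mul_simple p₁ j
  have hlen1 : cs.length (p₁ * cs.simple j) = cs.length p₁ + 1 := by omega
  have hlen2 : cs.length g = cs.length (p₁ * cs.simple j) +
      cs.length (q * (cs.simple j * y)) := by omega
  have f1 : φ g = φ (p₁ * cs.simple j) + φ (q * (cs.simple j * y)) := by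
    conv_lhs => rw [hdec]
    apply hφ
    rw [← hdec]; exact hlen2
  have f2 : φ (p₁ * cs.simple j) = φ p₁ + φ (cs.simple j) := hφ.mul_simple (by omega)
  have f3 := hdom j hjJ p₁ hp₁ (fun i hi hi2 => hdq i ⟨hi, hi2⟩)
  have f4 := ih _ (by omega) (q * (cs.simple j * y)) rfl
  linarith

/-- Criterion. -/
theorem criterion {φ : W → ℝ} (hφ : IsWeight cs φ) {C : ℝ} (hC : ∀ g, φ g ≤ C) (J : Set B)
    (hJ : ∀ j, j ∉ J → (φ (cs.simple j) ≤ 0 ∧ ∀ i ∈ J, M i j = 2 ∨ M i j = 0) ∨ Dom cs φ J j)
    {K : ℝ} (hK : ∀ p ∈ Para cs J, φ p ≤ K) (g : W) : φ g ≤ K := by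
  set S : Set ℝ := φ '' (Para cs J : Set W) with hS
  have hSne : S.Nonempty := ⟨φ 1, 1, one_mem (Para cs J), rfl⟩
  have hSb : BddAbove S := ⟨K, by rintro _ ⟨p, hp, rfl⟩; exact hK p hp⟩
  have hM₀ : ∀ p ∈ Para cs J, φ p ≤ sSup S := fun p hp => le_csSup hSb ⟨p, hp, rfl⟩
  have hsup : ∀ ε > 0, ∃ u ∈ Para cs J, sSup S - ε < φ u := by
    intro ε hε
    obtain ⟨_, ⟨u, hu, rfl⟩, h2⟩ := exists_lt_of_lt_csSup hSne (show sSup S - ε < sSup S by linarith)
    exact ⟨u, hu, h2⟩
  have hdom : ∀ j, j ∉ J → Dom cs φ J j := by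
    intro j hj
    rcases hJ j hj with h | h
    · exact dom_of_sep hφ J hj h.1 h.2 hM₀ hsup hC
    · exact h
  refine (bound_of_dom hφ J hdom hM₀ _ g rfl).trans ?_
  exact csSup_le hSne (by rintro _ ⟨p, hp, rfl⟩; exact hK p hp)

lemma odd_eq {φ : W → ℝ} (hφ : IsWeight cs φ) {i j : B} (h : Odd (M i j)) :
    φ (cs.simple i) = φ (cs.simple j) := by
  by_cases hij : i = j
  · rw [hij]
  obtain ⟨k, hk⟩ := h
  have hb := cs.wordProd_braidWord_eq i j
  unfold braidWord at hb
  rw [M.symmetric j i, hk] at hb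
  have hred : cs.IsReduced (alternatingWord i j (2 * k + 1)) :=
    isReduced_alternatingWord cs hij (Or.inr (by omega))
  have hred2 : cs.IsReduced (alternatingWord i j (2 * k)) :=
    isReduced_alternatingWord cs hij (Or.inr (by omega))
  have hl : cs.length (cs.wordProd (alternatingWord i j (2 * k + 1))) = 2 * k + 1 := by
    have : cs.length (cs.wordProd (alternatingWord i j (2 * k + 1))) =
      (alternatingWord i j (2 * k + 1)).length := hred
    rw [this, length_alternatingWord]
  have hl2 : cs.length (cs.wordProd (alternatingWord i j (2 * k))) = 2 * k := by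
    have : cs.length (cs.wordProd (alternatingWord i j (2 * k))) =
      (alternatingWord i j (2 * k)).length := hred2
    rw [this, length_alternatingWord]
  have e1 : cs.wordProd (alternatingWord i j (2 * k + 1)) =
      cs.simple j * cs.wordProd (alternatingWord i j (2 * k)) := by
    rw [alternatingWord_succ', cs.wordProd_cons]; simp
  have e2 : cs.wordProd (alternatingWord j i (2 * k + 1)) =
      cs.wordProd (alternatingWord i j (2 * k)) * cs.simple i := by
    rw [alternatingWord_succ, cs.wordProd_concat]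
  have f1 : φ (cs.wordProd (alternatingWord i j (2 * k + 1))) =
      φ (cs.simple j) + φ (cs.wordProd (alternatingWord i j (2 * k))) := by
    rw [e1]; apply hφ; rw [← e1, hl, hl2, cs.length_simple]; omega
  have f2 : φ (cs.wordProd (alternatingWord i j (2 * k + 1))) =
      φ (cs.wordProd (alternatingWord i j (2 * k))) + φ (cs.simple i) := by
    rw [hb, e2]; apply hφ; rw [← e2, ← hb, hl, hl2, cs.length_simple]
  linarith

end Pool.Agent.Helper5.Cox
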