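import Pool.Agent.Helper5_cox.Amalg

set_option autoImplicit false

/-!
# Visible splittings

If `K = S₁ ∪ S₂` and all labels between `S₁ \ S₂` and `S₂ \ S₁` are infinite then a bounded
weight function satisfies `sup W_K = max (sup W_{S₁}) (sup W_{S₂})`.
-/

namespace Pool.Agent.Helper5.Cox

open Pool.Agent.Helper741 Pool.Agent.TH107 CoxeterSystem

variable {B : Type*} {M : CoxeterMatrix B} [Fintype B] [DecidableEq B]
variable {W : Type*} [Group W] {cs : CoxeterSystem M W}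

/-- no right descent in `S` -/
def NoR (cs : CoxeterSystem M W) (S : Set B) (x : W) : Prop :=
  ∀ k ∈ S, cs.length x < cs.length (x * cs.simple k)

/-- no left descent in `S` -/
def NoL (cs : CoxeterSystem M W) (S : Set B) (x : W) : Prop :=
  ∀ k ∈ S, cs.length x < cs.length (cs.simple k * x)

omit [Fintype B] [DecidableEq B] in
lemma noL_inv {S : Set B} {x : W} (h : NoR cs S x) : NoL cs S x⁻¹ := by
  intro k hk
  have := h k hk
  have h1 : cs.simple k * x⁻¹ = (x * cs.simple k)⁻¹ := by rw [mul_inv_rev, cs.inv_simple]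
  rw [h1, cs.length_inv, cs.length_inv]; exact this

omit [Fintype B] [DecidableEq B] in
lemma noR_inv {S : Set B} {x : W} (h : NoL cs S x) : NoR cs S x⁻¹ := by
  intro k hk
  rw [inv_right_len, cs.length_inv]; exact h k hk

lemma para_noR {S : Set B} {q d : W} (hq : q ∈ Para cs S) (hd : NoL cs S d) :
    cs.length (q * d) = cs.length q + cs.length d := by
  have h6 := length_mul_para (cs := cs) (P := S) (z := d⁻¹) (noR_inv hd) _ q⁻¹ rfl (inv_mem hq)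
  rw [← mul_inv_rev, cs.length_inv (q * d), cs.length_inv d, cs.length_inv q] at h6
  omega

lemma end_type {S₁ S₂ : Set B}
    (hS : ∀ s ∈ S₁, s ∉ S₂ → ∀ t ∈ S₂, t ∉ S₁ → M s t = 0) {x u : W} (hx : NoR cs S₁ x)
    (hu : u ∈ Para cs S₁) (hu0 : u ∉ Para cs (S₁ ∩ S₂)) :
    ∃ a q : W, q ∈ Para cs (S₁ ∩ S₂) ∧ x * u = a * q ∧
      cs.length (x * u) = cs.length a + cs.length q ∧ NoR cs S₂ a := by
  obtain ⟨u', q, hq, he, hl, hd⟩ := factor (cs := cs) (S₁ ∩ S₂) _ u rfl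
  have hu' : u' ∈ Para cs S₁ := by
    have : u' = u * q⁻¹ := by rw [he]; group
    rw [this]; exact mul_mem hu (inv_mem (para_mono Set.inter_subset_left hq))
  have hu1 : u' ≠ 1 := by
    rintro rfl
    rw [one_mul] at he
    rw [he] at hu0
    exact hu0 hq
  obtain ⟨s, hs⟩ := cs.exists_rightDescent_of_ne_one hu1
  have hs' : cs.length (u' * cs.simple s) < cs.length u' := hs
  have hs1 : s ∈ S₁ := para_descent hu' hs'
  have hs2 : s ∉ S₂ := by
    intro h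
    have := hd s ⟨hs1, h⟩
    omega
  have key : ∀ w ∈ Para cs S₁, cs.length (x * w) = cs.length x + cs.length w :=
    fun w hw => length_mul_para (cs := cs) hx _ w rfl hw
  have hl1 := key u' hu'
  refine ⟨x * u', q, hq, by rw [he, mul_assoc], ?_, ?_⟩
  · rw [key u hu, hl1, hl]; omega
  · intro t ht
    by_cases ht1 : t ∈ S₁
    · rw [mul_assoc, key _ (mul_mem hu' (simple_mem_para ht1)), hl1]
      have := hd t ⟨ht1, ht⟩
      omega
    · by_contra hcon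
      have hlt : cs.length (x * u' * cs.simple t) < cs.length (x * u') := by
        rcases cs.length_mul_simple (x * u') t with h1 | h1 <;> omega
      have hsneg : cs.length (x * u' * cs.simple s) < cs.length (x * u') := by
        rw [mul_assoc, key _ (mul_mem hu' (simple_mem_para hs1)), hl1]; omega
      have hst : s ≠ t := by rintro rfl; exact hs2 ht
      exact no_both (x * u') hst (hS s hs1 hs2 t ht ht1)
        ((geo_nonpos_iff cs _ s).2 hsneg) ((geo_nonpos_iff cs _ t).2 hlt)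

lemma length_split : ∀ n : ℕ, ∀ S₁ S₂ : Set B,
    (∀ s ∈ S₁, s ∉ S₂ → ∀ t ∈ S₂, t ∉ S₁ → M s t = 0) →
    ∀ y : W, cs.length y = n → y ∈ Para cs (S₁ ∪ S₂) → NoL cs S₁ y →
    ∀ x : W, NoR cs S₁ x → ∀ u ∈ Para cs S₁, u ∉ Para cs (S₁ ∩ S₂) →
      cs.length (x * u * y) = cs.length (x * u) + cs.length y := by
  intro n
  induction n using Nat.strong_induction_on with
  | _ n ih =>
  intro S₁ S₂ hS y hy hyK hyL x hx u hu hu0
  by_cases hy1 : y = 1
  · rw [hy1]; simp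
  obtain ⟨y₁, d₁, hd₁, he, hl, hdes⟩ := factor (cs := cs) S₂ _ y⁻¹ rfl
  have hyd : y = d₁⁻¹ * y₁⁻¹ := by rw [← mul_inv_rev, ← he, inv_inv]
  have hlen : cs.length y = cs.length d₁⁻¹ + cs.length y₁⁻¹ := by
    rw [cs.length_inv, cs.length_inv, ← cs.length_inv y, hl]; omega
  have hdK : d₁⁻¹ ∈ Para cs S₂ := inv_mem hd₁
  have hy₁L : NoL cs S₂ y₁⁻¹ := noL_inv hdes
  have hd1 : d₁⁻¹ ≠ 1 := by
    intro h
    rw [h, one_mul] at hyd
    obtain ⟨t, ht⟩ := cs.exists_leftDescent_of_ne_one hy1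
    have ht' : cs.length (cs.simple t * y) < cs.length y := ht
    rcases para_descent_left hyK ht' with h1 | h1
    · have := hyL t h1; omega
    · have := hy₁L t h1
      rw [← hyd] at this
      omega
  have hdl : 1 ≤ cs.length d₁⁻¹ := by
    by_contra h
    have h7 : cs.length d₁⁻¹ = 0 := by omega
    exact hd1 (cs.length_eq_zero_iff.1 h7)
  have hdL : NoL cs (S₁ ∩ S₂) d₁⁻¹ := by
    intro f hf
    have h5 := hyL f hf.1
    have h6 := cs.length_mul_le (cs.simple f * d₁⁻¹) y₁⁻¹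
    rw [mul_assoc, ← hyd] at h6
    rcases cs.length_simple_mul d₁⁻¹ f with h7 | h7 <;> omega
  have hy'K : y₁⁻¹ ∈ Para cs (S₂ ∪ S₁) := by
    have : y₁⁻¹ = d₁⁻¹⁻¹ * y := by rw [hyd]; group
    rw [this, Set.union_comm]
    exact mul_mem (inv_mem (para_mono Set.subset_union_right hdK)) hyK
  obtain ⟨a, q, hq, hxa, hla, hna⟩ := end_type hS hx hu hu0
  have hqd : q * d₁⁻¹ ∈ Para cs S₂ := mul_mem (para_mono Set.inter_subset_right hq) hdK
  have hqd0 : q * d₁⁻¹ ∉ Para cs (S₂ ∩ S₁) := by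
    intro h
    rw [Set.inter_comm] at h
    have h5 : d₁⁻¹ ∈ Para cs (S₁ ∩ S₂) := by
      have : d₁⁻¹ = q⁻¹ * (q * d₁⁻¹) := by group
      rw [this]; exact mul_mem (inv_mem hq) h
    obtain ⟨f, hf⟩ := cs.exists_leftDescent_of_ne_one hd1
    have hf' : cs.length (cs.simple f * d₁⁻¹) < cs.length d₁⁻¹ := hf
    have := hdL f (para_descent_left h5 hf')
    omega
  have h1 := ih (cs.length y₁⁻¹) (by omega) S₂ S₁
    (fun s hs hs' t ht ht' => by rw [M.symmetric]; exact hS t ht ht' s hs hs')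
    y₁⁻¹ rfl hy'K hy₁L a hna (q * d₁⁻¹) hqd hqd0
  have h2 := length_mul_para (cs := cs) hna _ (q * d₁⁻¹) rfl hqd
  have h3 := para_noR hq hdL
  have h4 : x * u * y = a * (q * d₁⁻¹) * y₁⁻¹ := by rw [hxa, hyd]; group
  rw [h4, h1, h2, h3, hla, hlen]
  omega

lemma normal_form (S₁ S₂ : Set B) {x : W} (hx : x ∈ Para cs (S₁ ∪ S₂)) :
    x ∈ Para cs (S₁ ∩ S₂) ∨
    (∃ x' u : W, NoR cs S₁ x' ∧ u ∈ Para cs S₁ ∧ u ∉ Para cs (S₁ ∩ S₂) ∧ x = x' * u) ∨
    (∃ x' u : W, NoR cs S₂ x' ∧ u ∈ Para cs S₂ ∧ u ∉ Para cs (S₁ ∩ S₂) ∧ x = x' * u) := by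
  obtain ⟨x', u, hu, he, hl, hd⟩ := factor (cs := cs) S₁ _ x rfl
  by_cases hu0 : u ∈ Para cs (S₁ ∩ S₂)
  swap
  · right; left; exact ⟨x', u, hd, hu, hu0, he⟩
  obtain ⟨x'', v, hv, he', hl', hd'⟩ := factor (cs := cs) S₂ _ x rfl
  by_cases hv0 : v ∈ Para cs (S₁ ∩ S₂)
  swap
  · right; right; exact ⟨x'', v, hd', hv, hv0, he'⟩
  left
  have hw : v * u⁻¹ ∈ Para cs (S₁ ∩ S₂) := mul_mem hv0 (inv_mem hu0)
  have e1 : x' = x'' * (v * u⁻¹) := by
    rw [← mul_assoc, ← he', he]; group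
  have e2 : x'' = x' * (v * u⁻¹)⁻¹ := by rw [e1]; group
  have l1 := length_mul_para (cs := cs) (P := S₁ ∩ S₂) (z := x'')
    (fun k hk => hd' k hk.2) _ (v * u⁻¹) rfl hw
  have l2 := length_mul_para (cs := cs) (P := S₁ ∩ S₂) (z := x')
    (fun k hk => hd k hk.1) _ (v * u⁻¹)⁻¹ rfl (inv_mem hw)
  rw [← e1] at l1
  rw [← e2, cs.length_inv] at l2
  have l3 : cs.length (v * u⁻¹) = 0 := by omega
  have l4 : v * u⁻¹ = 1 := cs.length_eq_zero_iff.1 l3
  rw [l4, mul_one] at e1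
  have hx'K : x' ∈ Para cs (S₁ ∪ S₂) := by
    have : x' = x * u⁻¹ := by rw [he]; group
    rw [this]; exact mul_mem hx (inv_mem (para_mono Set.subset_union_left hu))
  have hx1 : x' = 1 := by
    by_contra h
    obtain ⟨k, hk⟩ := cs.exists_rightDescent_of_ne_one h
    have hk' : cs.length (x' * cs.simple k) < cs.length x' := hk
    rcases para_descent hx'K hk' with h1 | h1
    · have := hd k h1; omega
    · have := hd' k h1
      rw [← e1] at this
      omega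
  rw [he, hx1, one_mul]; exact hu0

lemma superadd_split {φ : W → ℝ} (hφ : IsWeight cs φ) (S₁ S₂ : Set B)
    (hS : ∀ s ∈ S₁, s ∉ S₂ → ∀ t ∈ S₂, t ∉ S₁ → M s t = 0) {M₀ : ℝ}
    (h1 : ∀ p ∈ Para cs S₁, φ p ≤ M₀) (h2 : ∀ p ∈ Para cs S₂, φ p ≤ M₀) {x y : W}
    (hx : x ∈ Para cs (S₁ ∪ S₂)) (hy : y ∈ Para cs (S₁ ∪ S₂)) :
    ∃ z ∈ Para cs (S₁ ∪ S₂), φ x + φ y - M₀ ≤ φ z := by
  have core : ∀ S₁ S₂ : Set B, (∀ s ∈ S₁, s ∉ S₂ → ∀ t ∈ S₂, t ∉ S₁ → M s t = 0) →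
      (∀ p ∈ Para cs S₁, φ p ≤ M₀) → x ∈ Para cs (S₁ ∪ S₂) → y ∈ Para cs (S₁ ∪ S₂) →
      (∃ x' u : W, NoR cs S₁ x' ∧ u ∈ Para cs S₁ ∧ u ∉ Para cs (S₁ ∩ S₂) ∧ x = x' * u) →
      ∃ z ∈ Para cs (S₁ ∪ S₂), φ x + φ y - M₀ ≤ φ z := by
    intro S₁ S₂ hS h1 hx hy hex
    obtain ⟨x', u, hx', hu, hu0, hxu⟩ := hex
    obtain ⟨y₁, b₁, hb₁, he, hl, hdes⟩ := factor (cs := cs) S₁ _ y⁻¹ rfl
    have hyd : y = b₁⁻¹ * y₁⁻¹ := by rw [← mul_inv_rev, ← he, inv_inv]
    have hlen : cs.length y = cs.length b₁⁻¹ + cs.length y₁⁻¹ := by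
      rw [cs.length_inv, cs.length_inv, ← cs.length_inv y, hl]; omega
    have hy'K : y₁⁻¹ ∈ Para cs (S₁ ∪ S₂) := by
      have : y₁⁻¹ = b₁⁻¹⁻¹ * y := by rw [hyd]; group
      rw [this]
      exact mul_mem (inv_mem (para_mono Set.subset_union_left (inv_mem hb₁))) hy
    have h3 := length_split (cs := cs) _ S₁ S₂ hS y₁⁻¹ rfl hy'K (noL_inv hdes) x' hx' u hu hu0
    rw [← hxu] at h3
    refine ⟨x * y₁⁻¹, mul_mem hx hy'K, ?_⟩
    have e1 := hφ _ _ h3
    have e2 : φ y = φ b₁⁻¹ + φ y₁⁻¹ := by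
      conv_lhs => rw [hyd]
      apply hφ
      rw [← hyd]; exact hlen
    have e3 := h1 b₁⁻¹ (inv_mem hb₁)
    linarith
  rcases normal_form S₁ S₂ hx with h | h | h
  · refine ⟨y, hy, ?_⟩
    have := h1 x (para_mono Set.inter_subset_left h)
    linarith
  · exact core S₁ S₂ hS h1 hx hy h
  · have := core S₂ S₁ (fun s hs hs' t ht ht' => by rw [M.symmetric]; exact hS t ht ht' s hs hs')
      h2 (by rwa [Set.union_comm]) (by rwa [Set.union_comm]) (by rwa [Set.inter_comm])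
    rwa [Set.union_comm] at this

lemma bound_split {φ : W → ℝ} (hφ : IsWeight cs φ) (S₁ S₂ : Set B)
    (hS : ∀ s ∈ S₁, s ∉ S₂ → ∀ t ∈ S₂, t ∉ S₁ → M s t = 0) {M₀ : ℝ}
    (h1 : ∀ p ∈ Para cs S₁, φ p ≤ M₀) (h2 : ∀ p ∈ Para cs S₂, φ p ≤ M₀)
    {C : ℝ} (hC : ∀ g, φ g ≤ C) (g : W) (hg : g ∈ Para cs (S₁ ∪ S₂)) : φ g ≤ M₀ := by
  by_contra hcon
  push Not at hcon
  have key : ∀ n : ℕ, ∃ z ∈ Para cs (S₁ ∪ S₂), n * (φ g - M₀) ≤ φ z := by
    intro n
    induction n with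
    | zero => exact ⟨1, one_mem _, by rw [hφ.one]; simp⟩
    | succ n ih =>
      obtain ⟨z, hzK, hz⟩ := ih
      obtain ⟨z', hzK', hz'⟩ := superadd_split hφ S₁ S₂ hS h1 h2 hzK hg
      refine ⟨z', hzK', ?_⟩
      push_cast
      linarith
  obtain ⟨n, hn⟩ := exists_nat_gt (C / (φ g - M₀))
  obtain ⟨z, _, hz⟩ := key n
  have h1 : 0 < φ g - M₀ := by linarith
  rw [div_lt_iff₀ h1] at hn
  have := hC z
  linarith

/-- Reduction to subsets without infinite labels. -/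
theorem reduction {φ : W → ℝ} (hφ : IsWeight cs φ) {C : ℝ} (hC : ∀ g, φ g ≤ C) {M₀ : ℝ} :
    ∀ n : ℕ, ∀ K : Set B, K.ncard = n →
      (∀ T ⊆ K, (∀ i ∈ T, ∀ j ∈ T, M i j ≠ 0) → ∀ p ∈ Para cs T, φ p ≤ M₀) →
      ∀ g ∈ Para cs K, φ g ≤ M₀ := by
  intro n
  induction n using Nat.strong_induction_on with
  | _ n ih =>
  intro K hK hT g hg
  by_cases hcl : ∀ i ∈ K, ∀ j ∈ K, M i j ≠ 0
  · exact hT K subset_rfl hcl g hg
  push Not at hcl
  obtain ⟨s, hs, t, ht, hst⟩ := hcl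
  have hne : s ≠ t := by
    rintro rfl
    rw [M.diagonal] at hst
    exact one_ne_zero hst
  have hfin : K.Finite := Set.toFinite K
  have c1 : (K \ {s}).ncard < n := by
    rw [← hK]; exact Set.ncard_sdiff_singleton_lt_of_mem hs hfin
  have c2 : (K \ {t}).ncard < n := by
    rw [← hK]; exact Set.ncard_sdiff_singleton_lt_of_mem ht hfin
  have hu : K \ {s} ∪ K \ {t} = K := by
    ext k
    constructor
    · rintro (h | h) <;> exact h.1
    · intro hk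
      by_cases hks : k = s
      · right; exact ⟨hk, by rw [hks]; exact hne⟩
      · left; exact ⟨hk, hks⟩
  apply bound_split hφ (K \ {s}) (K \ {t}) _ _ _ hC g (by rw [hu]; exact hg)
  · intro a ha ha' b hb hb'
    have hat : a = t := by
      by_contra h
      exact ha' ⟨ha.1, h⟩
    have hbs : b = s := by
      by_contra h
      exact hb' ⟨hb.1, h⟩
    rw [hat, hbs, M.symmetric]; exact hst
  · exact ih _ c1 _ rfl (fun T hTK hTc => hT T (hTK.trans Set.sdiff_subset) hTc)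
  · exact ih _ c2 _ rfl (fun T hTK hTc => hT T (hTK.trans Set.sdiff_subset) hTc)

end Pool.Agent.Helper5.Cox
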